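import Pool.Agent.helper1.PR.Final

/-!
MP_15abe0_co: the equation `2x + 2√2 y = w z³` is partition regular over the totally positive
elements of `ℤ[√2]`.
-/

namespace Pool.Agent.Results.MP_15abe0_co.TotallyPositiveYes

/-- the set `P` of totally positive elements of `ℤ[√2]`: both real images `a + b√2` and `a - b√2`
are positive -/
def P : Set (ℤ√2) :=
  {n | 0 < (n.re : ℝ) + n.im * √2 ∧ 0 < (n.re : ℝ) - n.im * √2}

theorem mem_P_of {n : ℤ√2} (h : Pool.Agent.helper1.PR.TP n) : n ∈ P := by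
  obtain ⟨h1, h2⟩ := h
  have h1' : (0 : ℝ) < n.re := by exact_mod_cast h1
  have h2' : 2 * (n.im : ℝ) ^ 2 < (n.re : ℝ) ^ 2 := by exact_mod_cast h2
  have h3 : ((n.im : ℝ) * √2) ^ 2 < (n.re : ℝ) ^ 2 := by
    rw [mul_pow, Real.sq_sqrt (by norm_num)]; linarith
  have h4 := abs_lt_of_sq_lt_sq h3 h1'.le
  rw [abs_lt] at h4
  exact ⟨by linarith [h4.1], by linarith [h4.2]⟩

/-- the equation `2x + 2√2 y = w z³` is partition regular over the set `P` of totally positive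
elements of `ℤ[√2]`: for every `r ≥ 1` and every cover of `P` by `r` sets `C i ⊆ P`, one of the
sets contains `w, x, y, z` with `2x + 2√2 y = w z³` -/
theorem result : ∀ r : ℕ, 1 ≤ r → ∀ C : Fin r → Set (ℤ√2), (⋃ i, C i) = P →
    ∃ i, ∃ w ∈ C i, ∃ x ∈ C i, ∃ y ∈ C i, ∃ z ∈ C i,
      2 * x + 2 * Zsqrtd.sqrtd * y = w * z ^ 3 := by
  classical
  intro r hr C hC
  have i0 : Fin r := ⟨0, hr⟩
  have hex : ∀ n : ℤ√2, ∃ i, n ∈ P → n ∈ C i := by
    intro n
    by_cases hn : n ∈ P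
    · rw [← hC, Set.mem_iUnion] at hn
      obtain ⟨i, hi⟩ := hn
      exact ⟨i, fun _ => hi⟩
    · exact ⟨i0, fun h => absurd h hn⟩
  choose c hc using hex
  obtain ⟨w, x, y, z, hw, hx, hy, hz, h1, h2, h3, heq⟩ :=
    Pool.Agent.helper1.PR.exists_solution c
  refine ⟨c z, w, ?_, x, ?_, y, ?_, z, hc z (mem_P_of hz), heq⟩
  · rw [← h1]; exact hc w (mem_P_of hw)
  · rw [← h2]; exact hc x (mem_P_of hx)
  · rw [← h3]; exact hc y (mem_P_of hy)

end Pool.Agent.Results.MP_15abe0_co.TotallyPositiveYes
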